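import Pool.Agent.Helper3.TD.Cls2

/-! From the natural densities in the classes modulo odd numbers to the densities of invariant sets in all
odd residue classes modulo even numbers. -/

namespace Pool.Agent.Helper32.EQ

open Pool.Agent.Helper3.ND Pool.Agent.Helper3.TD Filter Topology

/-- densities in the classes of odd moduli -/
def DC : Prop := ∀ (Y : ℝ), 0 ≤ Y → ∀ Φ : ℤ → ℝ, Inv Φ Y → ∀ c0 : ℝ, Tendsto (fun X : ℕ => Nc Φ X / X) atTop (𝓝 c0) →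
  ∀ B : ℕ, Odd B → ∀ c : ℤ, Tendsto (fun X : ℕ => Nc (fun N => if (B : ℤ) ∣ N - c then Φ N else 0) X / X) atTop (𝓝 (c0 / B))

theorem sum_diff {f : ℤ → ℝ} (h0 : ∀ n, 0 ≤ f n) (h1 : ∀ n, f n ≤ 1) (U V W : Finset ℤ)
    (hUV : ∀ t, (t ∈ U ↔ t ∈ V) ∨ t ∈ W) : |∑ t ∈ U, f t - ∑ t ∈ V, f t| ≤ W.card := by
  classical
  have e1 : ∑ t ∈ U, f t = ∑ t ∈ U \ V, f t + ∑ t ∈ U ∩ V, f t := by
    rw [← Finset.sum_union (Finset.disjoint_sdiff_inter U V), Finset.sdiff_union_inter]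
  have e2 : ∑ t ∈ V, f t = ∑ t ∈ V \ U, f t + ∑ t ∈ U ∩ V, f t := by
    rw [Finset.inter_comm, ← Finset.sum_union (Finset.disjoint_sdiff_inter V U), Finset.sdiff_union_inter]
  have hb : ∀ P : Finset ℤ, P ⊆ W → 0 ≤ ∑ t ∈ P, f t ∧ ∑ t ∈ P, f t ≤ W.card := by
    intro P hP
    refine ⟨Finset.sum_nonneg (fun t _ => h0 t), ?_⟩
    calc ∑ t ∈ P, f t ≤ ∑ t ∈ P, (1 : ℝ) := Finset.sum_le_sum (fun t _ => h1 t)
      _ = P.card := by simp
      _ ≤ W.card := by exact_mod_cast Finset.card_le_card hP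
  have hU : U \ V ⊆ W := by
    intro t ht
    rw [Finset.mem_sdiff] at ht
    rcases hUV t with h | h
    · exact absurd (h.mp ht.1) ht.2
    · exact h
  have hV : V \ U ⊆ W := by
    intro t ht
    rw [Finset.mem_sdiff] at ht
    rcases hUV t with h | h
    · exact absurd (h.mpr ht.1) ht.2
    · exact h
  have a1 := hb _ hU
  have a2 := hb _ hV
  rw [e1, e2, abs_le]
  constructor <;> linarith [a1.1, a1.2, a2.1, a2.2]

/-- sum over a class, parametrised -/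
noncomputable def R (Φ : ℤ → ℝ) (B : ℕ) (c : ℤ) (Z : ℕ) : ℝ := ∑ t ∈ Finset.Icc (-(Z : ℤ)) Z, Φ (c + B * t)

theorem Nc_R {Φ : ℤ → ℝ} (h0 : ∀ n, 0 ≤ Φ n) (h1 : ∀ n, Φ n ≤ 1) {B : ℕ} (hB : 0 < B) (c : ℤ) : ∃ K : ℝ, ∀ X : ℕ,
    |Nc (fun N => if (B : ℤ) ∣ N - c then Φ N else 0) X - R Φ B c (X / B)| ≤ K := by
  classical
  refine ⟨((2 * (2 * c.natAbs + 2) : ℕ) : ℝ), ?_⟩
  intro X
  obtain ⟨Z, hZ⟩ : ∃ Z, Z = X / B := ⟨_, rfl⟩
  have hZ1 : B * Z ≤ X := by rw [hZ]; exact Nat.mul_div_le X B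
  have hZ2 : X < B * (Z + 1) := by rw [hZ]; exact Nat.lt_mul_div_succ X hB
  have hBz : (1 : ℤ) ≤ B := by exact_mod_cast hB
  have hZ1' : (B : ℤ) * Z ≤ X := by exact_mod_cast hZ1
  have hZ2' : (X : ℤ) < B * (Z + 1) := by exact_mod_cast hZ2
  -- the sum over the class
  have e1 : Nc (fun N => if (B : ℤ) ∣ N - c then Φ N else 0) X =
      ∑ t ∈ (Finset.Icc (-(Z : ℤ) - 1 - |c|) (Z + 1 + |c|)).filter (fun t => -(X : ℤ) ≤ c + B * t ∧ c + B * t ≤ X), Φ (c + B * t) := by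
    unfold Nc
    rw [← Finset.sum_filter]
    symm
    apply Finset.sum_nbij' (fun t => c + B * t) (fun N => (N - c) / B)
    · intro t ht
      rw [Finset.mem_filter] at ht
      rw [Finset.mem_filter, Finset.mem_Icc]
      exact ⟨ht.2, ⟨t, by ring⟩⟩
    · intro N hN
      rw [Finset.mem_filter, Finset.mem_Icc] at hN
      obtain ⟨⟨a1, a2⟩, t, ht⟩ := hN
      have e : (N - c) / B = t := by rw [ht]; exact Int.mul_ediv_cancel_left _ (by omega)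
      rw [e]
      have e2 : c + B * t = N := by linarith
      rw [Finset.mem_filter, Finset.mem_Icc, e2]
      refine ⟨?_, a1, a2⟩
      have hc1 := le_abs_self c
      have hc2 := neg_abs_le c
      have hc0 := abs_nonneg c
      constructor
      · by_contra hcon
        have h3 : t ≤ -(Z : ℤ) - 1 - |c| - 1 := by omega
        have h4 : (B : ℤ) * t ≤ B * (-(Z : ℤ) - 1 - |c| - 1) := mul_le_mul_of_nonneg_left h3 (by omega)
        nlinarith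
      · by_contra hcon
        have h3 : (Z : ℤ) + 1 + |c| + 1 ≤ t := by omega
        have h4 : (B : ℤ) * (Z + 1 + |c| + 1) ≤ B * t := mul_le_mul_of_nonneg_left h3 (by omega)
        nlinarith
    · intro t _
      show ((c + B * t) - c) / B = t
      rw [show c + (B : ℤ) * t - c = B * t by ring]
      exact Int.mul_ediv_cancel_left _ (by omega)
    · intro N hN
      rw [Finset.mem_filter] at hN
      obtain ⟨_, t, ht⟩ := hN
      show c + B * ((N - c) / B) = N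
      rw [ht, Int.mul_ediv_cancel_left _ (by omega : (B : ℤ) ≠ 0)]
      linarith
    · intro t _
      rfl
  rw [e1, ← hZ]
  unfold R
  obtain ⟨a, ha⟩ : ∃ a : ℕ, a = c.natAbs := ⟨_, rfl⟩
  have hac : |c| = (a : ℤ) := by rw [ha]; exact Int.abs_eq_natAbs c
  refine le_trans (sum_diff (fun t => h0 _) (fun t => h1 _) _ _
    (Finset.Icc (-(Z : ℤ) - 1 - a) (-(Z : ℤ) + a) ∪ Finset.Icc ((Z : ℤ) - a) (Z + 1 + a)) ?_) ?_
  · intro t
    rw [Finset.mem_filter, Finset.mem_Icc, Finset.mem_Icc, Finset.mem_union, Finset.mem_Icc, Finset.mem_Icc, hac]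
    by_cases h3 : -(Z : ℤ) + a < t ∧ t < Z - a
    · left
      have hc1 := le_abs_self c
      have hc2 := neg_abs_le c
      rw [hac] at hc1 hc2
      have h4 : (B : ℤ) * (-(Z : ℤ) + a) ≤ B * t := mul_le_mul_of_nonneg_left h3.1.le (by omega)
      have h5 : (B : ℤ) * t ≤ B * (Z - a) := mul_le_mul_of_nonneg_left h3.2.le (by omega)
      have h6 : (a : ℤ) ≤ B * a := by nlinarith
      constructor
      · intro _
        omega
      · intro _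
        refine ⟨by omega, ?_, ?_⟩
        · nlinarith
        · nlinarith
    · by_cases h4 : -(Z : ℤ) - 1 - a ≤ t ∧ t ≤ Z + 1 + a
      · right
        omega
      · left
        constructor
        · intro h5; exact absurd h5.1 h4
        · intro h5; omega
  · have h3 : (Finset.Icc (-(Z : ℤ) - 1 - a) (-(Z : ℤ) + a) ∪ Finset.Icc ((Z : ℤ) - a) (Z + 1 + a)).card ≤ 2 * (2 * a + 2) := by
      refine le_trans (Finset.card_union_le _ _) ?_
      rw [Int.card_Icc, Int.card_Icc]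
      omega
    rw [ha] at h3
    rw [ha]
    exact_mod_cast h3

theorem tends_of_bdd {f g : ℕ → ℝ} {K c : ℝ} (h : ∀ X, |f X - g X| ≤ K) (hg : Tendsto (fun X : ℕ => g X / X) atTop (𝓝 c)) :
    Tendsto (fun X : ℕ => f X / X) atTop (𝓝 c) := by
  have h1 : Tendsto (fun X : ℕ => K * ((1 : ℝ) / X)) atTop (𝓝 (K * 0)) := tendsto_one_div_atTop_nhds_zero_nat.const_mul K
  rw [mul_zero] at h1
  have h2 : Tendsto (fun X : ℕ => f X / X - g X / X) atTop (𝓝 0) := by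
    apply squeeze_zero_norm _ h1
    intro X
    rw [Real.norm_eq_abs, ← sub_div, abs_div, Nat.abs_cast, mul_one_div]
    exact div_le_div_of_nonneg_right (h X) (Nat.cast_nonneg X)
  have h3 := h2.add hg
  simpa using h3

theorem div_tends {B : ℕ} (hB : 0 < B) : Tendsto (fun X : ℕ => ((X / B : ℕ) : ℝ) / X) atTop (𝓝 (1 / B)) := by
  have hBr : (0 : ℝ) < B := by exact_mod_cast hB
  have h2 : Tendsto (fun X : ℕ => (1 : ℝ) / B - 1 * ((1 : ℝ) / X)) atTop (𝓝 (1 / B - 1 * 0)) :=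
    (tendsto_one_div_atTop_nhds_zero_nat.const_mul 1).const_sub (1 / (B : ℝ))
  rw [mul_zero, sub_zero] at h2
  apply tendsto_of_tendsto_of_tendsto_of_le_of_le' h2 tendsto_const_nhds
  · filter_upwards [eventually_ge_atTop 1] with X hX
    have hX0 : (0 : ℝ) < X := by exact_mod_cast hX
    have h3 : X < B * (X / B + 1) := Nat.lt_mul_div_succ X hB
    have h4 : (X : ℝ) < B * (((X / B : ℕ) : ℝ) + 1) := by exact_mod_cast h3
    rw [le_div_iff₀ hX0, sub_mul, one_mul, one_div_mul_cancel hX0.ne', one_div, inv_mul_eq_div, sub_le_iff_le_add,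
      div_le_iff₀ hBr]
    linarith
  · filter_upwards [eventually_ge_atTop 1] with X hX
    have hX0 : (0 : ℝ) < X := by exact_mod_cast hX
    have h3 : B * (X / B) ≤ X := Nat.mul_div_le X B
    have h4 : (B : ℝ) * ((X / B : ℕ) : ℝ) ≤ X := by exact_mod_cast h3
    rw [div_le_iff₀ hX0, one_div, inv_mul_eq_div, le_div_iff₀ hBr]
    linarith

theorem R_of_Nc {Φ : ℤ → ℝ} (h0 : ∀ n, 0 ≤ Φ n) (h1 : ∀ n, Φ n ≤ 1) {B : ℕ} (hB : 0 < B) (c : ℤ) {c0 : ℝ}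
    (h : Tendsto (fun X : ℕ => Nc (fun N => if (B : ℤ) ∣ N - c then Φ N else 0) X / X) atTop (𝓝 (c0 / B))) :
    Tendsto (fun Z : ℕ => R Φ B c Z / Z) atTop (𝓝 c0) := by
  obtain ⟨K, hK⟩ := Nc_R h0 h1 hB c
  have hBr : (0 : ℝ) < B := by exact_mod_cast hB
  have hm : Tendsto (fun Z : ℕ => B * Z) atTop atTop := tendsto_id.const_mul_atTop' hB
  have h2 := (h.comp hm).const_mul (B : ℝ)
  rw [mul_div_cancel₀ _ hBr.ne'] at h2
  apply tends_of_bdd (g := fun Z => Nc (fun N => if (B : ℤ) ∣ N - c then Φ N else 0) (B * Z)) (K := K)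
  · intro Z
    have h3 := hK (B * Z)
    rw [Nat.mul_div_cancel_left _ hB] at h3
    rw [abs_sub_comm]
    exact h3
  · refine h2.congr' ?_
    filter_upwards [eventually_ge_atTop 1] with Z hZ
    have hZ0 : (Z : ℝ) ≠ 0 := by
      have : (0 : ℝ) < Z := by exact_mod_cast hZ
      exact this.ne'
    simp only [Function.comp]
    push_cast
    field_simp

theorem Nc_of_R {Φ : ℤ → ℝ} (h0 : ∀ n, 0 ≤ Φ n) (h1 : ∀ n, Φ n ≤ 1) {B : ℕ} (hB : 0 < B) (c : ℤ) {c0 : ℝ}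
    (h : Tendsto (fun Z : ℕ => R Φ B c Z / Z) atTop (𝓝 c0)) :
    Tendsto (fun X : ℕ => Nc (fun N => if (B : ℤ) ∣ N - c then Φ N else 0) X / X) atTop (𝓝 (c0 / B)) := by
  obtain ⟨K, hK⟩ := Nc_R h0 h1 hB c
  apply tends_of_bdd (g := fun X => R Φ B c (X / B)) hK
  have h2 := (h.comp (Nat.tendsto_div_const_atTop hB.ne')).mul (div_tends hB)
  rw [mul_one_div] at h2
  refine h2.congr' ?_
  filter_upwards [eventually_ge_atTop B] with X hX
  have h3 : ((X / B : ℕ) : ℝ) ≠ 0 := by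
    have : 0 < X / B := Nat.div_pos hX hB
    exact_mod_cast this.ne'
  have h4 : (X : ℝ) ≠ 0 := by
    have : (0 : ℝ) < X := by exact_mod_cast (by omega : 0 < X)
    exact this.ne'
  simp only [Function.comp]
  field_simp

/-- comparison of a class modulo `2^l q` with its image under `T^l` -/
theorem R_iter {Y : ℝ} (hY : 0 ≤ Y) {Φ : ℤ → ℝ} (hΦ : Inv Φ Y) (l q : ℕ) (hq : 0 < q) (b : ℤ) : ∃ K : ℝ, ∀ Z : ℕ,
    |R Φ (2 ^ l * q) b Z - R Φ (3 ^ od l b * q) (T^[l] b) Z| ≤ K := by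
  classical
  obtain ⟨K0, hK0⟩ : ∃ K0 : ℕ, K0 = b.natAbs + ⌈Y * 2 ^ l⌉₊ := ⟨_, rfl⟩
  refine ⟨(((Finset.Icc (-(K0 : ℤ)) K0).card : ℕ) : ℝ), ?_⟩
  intro Z
  unfold R
  rw [← Finset.sum_sub_distrib]
  have h1 : ∀ t ∈ Finset.Icc (-(Z : ℤ)) Z, t ∉ Finset.Icc (-(K0 : ℤ)) K0 →
      Φ (b + ((2 ^ l * q : ℕ) : ℤ) * t) - Φ (T^[l] b + ((3 ^ od l b * q : ℕ) : ℤ) * t) = 0 := by
    intro t _ ht
    rw [Finset.mem_Icc] at ht
    have h2 := (shift l b (q * t)).2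
    have e1 : b + ((2 ^ l * q : ℕ) : ℤ) * t = b + 2 ^ l * (q * t) := by push_cast; ring
    have e2 : T^[l] b + ((3 ^ od l b * q : ℕ) : ℤ) * t = T^[l] b + 3 ^ od l b * (q * t) := by push_cast; ring
    rw [e1, e2, ← h2, hΦ.iter l _ _ hY, sub_self]
    have h3 : (K0 : ℤ) + 1 ≤ |t| := by
      rcases le_or_gt 0 t with h4 | h4
      · rw [abs_of_nonneg h4]; omega
      · rw [abs_of_neg h4]; omega
    have h5 : |t| ≤ |(2 ^ l * (q * t) : ℤ)| := by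
      rw [abs_mul, abs_mul]
      have a1 : (1 : ℤ) ≤ |(2 : ℤ) ^ l| := by
        rw [abs_of_pos (by positivity)]
        exact one_le_pow₀ (by norm_num)
      have a2 : (1 : ℤ) ≤ |(q : ℤ)| := by
        rw [abs_of_nonneg (by positivity)]
        exact_mod_cast hq
      have a3 := abs_nonneg t
      calc |t| = 1 * (1 * |t|) := by ring
        _ ≤ |(2 : ℤ) ^ l| * (|(q : ℤ)| * |t|) := by
          apply mul_le_mul a1 _ (by positivity) (by positivity)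
          exact mul_le_mul_of_nonneg_right a2 a3
    have h6 : |(2 ^ l * (q * t) : ℤ)| - |b| ≤ |b + 2 ^ l * (q * t)| := by
      have := abs_sub_abs_le_abs_sub (2 ^ l * (q * t)) (-b)
      rw [abs_neg, sub_neg_eq_add, add_comm (2 ^ l * (q * t)) b] at this
      exact this
    have h7 : (⌈Y * 2 ^ l⌉₊ : ℤ) + 1 ≤ |b + 2 ^ l * (q * t)| := by
      have h8 : |b| = (b.natAbs : ℤ) := Int.abs_eq_natAbs b
      have h9 : (K0 : ℤ) = b.natAbs + ⌈Y * 2 ^ l⌉₊ := by rw [hK0]; push_cast; ring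
      omega
    have h8 : ((⌈Y * 2 ^ l⌉₊ : ℕ) : ℝ) + 1 ≤ |((b + 2 ^ l * (q * t) : ℤ) : ℝ)| := by
      rw [← Int.cast_abs]; exact_mod_cast h7
    have h9 := Nat.le_ceil (Y * 2 ^ l)
    linarith
  have h2 : ∑ t ∈ Finset.Icc (-(Z : ℤ)) Z, (Φ (b + ((2 ^ l * q : ℕ) : ℤ) * t) - Φ (T^[l] b + ((3 ^ od l b * q : ℕ) : ℤ) * t)) =
      ∑ t ∈ Finset.Icc (-(Z : ℤ)) Z ∩ Finset.Icc (-(K0 : ℤ)) K0, (Φ (b + ((2 ^ l * q : ℕ) : ℤ) * t) - Φ (T^[l] b + ((3 ^ od l b * q : ℕ) : ℤ) * t)) := by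
    symm
    apply Finset.sum_subset Finset.inter_subset_left
    intro t ht1 ht2
    apply h1 t ht1
    intro h3
    exact ht2 (Finset.mem_inter.mpr ⟨ht1, h3⟩)
  rw [h2]
  calc |∑ t ∈ Finset.Icc (-(Z : ℤ)) Z ∩ Finset.Icc (-(K0 : ℤ)) K0, (Φ (b + ((2 ^ l * q : ℕ) : ℤ) * t) - Φ (T^[l] b + ((3 ^ od l b * q : ℕ) : ℤ) * t))|
      ≤ ∑ t ∈ Finset.Icc (-(Z : ℤ)) Z ∩ Finset.Icc (-(K0 : ℤ)) K0, |Φ (b + ((2 ^ l * q : ℕ) : ℤ) * t) - Φ (T^[l] b + ((3 ^ od l b * q : ℕ) : ℤ) * t)| :=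
        Finset.abs_sum_le_sum_abs _ _
    _ ≤ ∑ t ∈ Finset.Icc (-(Z : ℤ)) Z ∩ Finset.Icc (-(K0 : ℤ)) K0, (1 : ℝ) := by
        apply Finset.sum_le_sum
        intro t _
        rw [abs_le]
        have a1 := hΦ.nonneg (b + ((2 ^ l * q : ℕ) : ℤ) * t)
        have a2 := hΦ.le_one (b + ((2 ^ l * q : ℕ) : ℤ) * t)
        have a3 := hΦ.nonneg (T^[l] b + ((3 ^ od l b * q : ℕ) : ℤ) * t)
        have a4 := hΦ.le_one (T^[l] b + ((3 ^ od l b * q : ℕ) : ℤ) * t)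
        constructor <;> linarith
    _ = (((Finset.Icc (-(Z : ℤ)) Z ∩ Finset.Icc (-(K0 : ℤ)) K0).card : ℕ) : ℝ) := by simp
    _ ≤ (((Finset.Icc (-(K0 : ℤ)) K0).card : ℕ) : ℝ) := by
        exact_mod_cast Finset.card_le_card Finset.inter_subset_right

/-- **densities in all classes** -/
theorem all_classes (H : DC) {Y : ℝ} (hY : 0 ≤ Y) {Φ : ℤ → ℝ} (hΦ : Inv Φ Y) {c0 : ℝ}
    (hc0 : Tendsto (fun X : ℕ => Nc Φ X / X) atTop (𝓝 c0)) (M : ℕ) (hM : 0 < M) (b : ℤ) :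
    Tendsto (fun X : ℕ => Nc (fun N => if (M : ℤ) ∣ N - b then Φ N else 0) X / X) atTop (𝓝 (c0 / M)) := by
  obtain ⟨l, q, hq, rfl⟩ : ∃ l q : ℕ, Odd q ∧ M = 2 ^ l * q := by
    obtain ⟨l, q, h1, h2⟩ := Nat.exists_eq_two_pow_mul_odd hM.ne'
    exact ⟨l, q, h1, h2⟩
  have hq0 : 0 < q := hq.pos
  have h3 : Odd (3 ^ od l b * q) := (Odd.pow (by decide)).mul hq
  have h4 := R_of_Nc hΦ.nonneg hΦ.le_one h3.pos (T^[l] b) (H Y hY Φ hΦ c0 hc0 _ h3 (T^[l] b))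
  apply Nc_of_R hΦ.nonneg hΦ.le_one (by positivity) b
  obtain ⟨K, hK⟩ := R_iter hY hΦ l q hq0 b
  exact tends_of_bdd hK h4

theorem cS_class (S : Set ℤ) {m : ℕ} {b : ℤ} (hb : Odd b) (X : ℕ) :
    ((cS (S ∩ {N : ℤ | ((2 * m : ℕ) : ℤ) ∣ N - b}) (X : ℝ) : ℕ) : ℝ) =
      Nc (fun N => if ((2 * m : ℕ) : ℤ) ∣ N - b then phi S N else 0) X := by
  classical
  unfold Nc phi
  rw [← Finset.sum_filter, ← Finset.sum_filter, Finset.sum_const, nsmul_eq_mul, mul_one]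
  unfold cS
  congr 1
  rw [← Set.ncard_coe_finset]
  congr 1
  ext N
  simp only [Finset.coe_filter, Finset.mem_filter, Finset.mem_Icc, Set.mem_ofPred_eq, Set.mem_inter_iff]
  have hodd : ((2 * m : ℕ) : ℤ) ∣ N - b → Odd N := by
    rintro ⟨t, ht⟩
    have : N = b + 2 * (m * t) := by push_cast at ht; linarith
    rw [this]
    exact hb.add_even ⟨m * t, by ring⟩
  constructor
  · rintro ⟨⟨a1, a2⟩, a3, a4, a5⟩
    have h5 : -(X : ℤ) ≤ N := by exact_mod_cast a5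
    exact ⟨⟨⟨h5, by omega⟩, a2⟩, (PS_odd a4).mpr ⟨a3, a1⟩⟩
  · rintro ⟨⟨⟨a1, a2⟩, a3⟩, a4⟩
    rw [PS_odd (hodd a3)] at a4
    exact ⟨⟨a4.2, a3⟩, a4.1, hodd a3, by exact_mod_cast a1⟩

theorem cS_class_dens (H : DC) {S : Set ℤ} (hS : SInv S) {c0 : ℝ}
    (hc0 : Tendsto (fun X : ℕ => Nc (phi S) X / X) atTop (𝓝 c0)) {m : ℕ} (hm : 0 < m) {b : ℤ} (hb : Odd b) :
    Tendsto (fun x : ℝ => ((cS (S ∩ {N : ℤ | ((2 * m : ℕ) : ℤ) ∣ N - b}) x : ℕ) : ℝ) / x) atTop (𝓝 (c0 / (2 * m : ℕ))) := by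
  have h2 := all_classes H le_rfl (phi_inv hS) hc0 (2 * m) (by omega) b
  have h2' : Tendsto (fun X : ℕ => ((cS (S ∩ {N : ℤ | ((2 * m : ℕ) : ℤ) ∣ N - b}) (X : ℝ) : ℕ) : ℝ) / X) atTop (𝓝 (c0 / (2 * m : ℕ))) :=
    h2.congr (fun X => by rw [cS_class S hb X])
  have h3 := (h2'.comp tendsto_nat_floor_atTop).mul (tendsto_nat_floor_div_atTop (R := ℝ))
  rw [mul_one] at h3
  refine h3.congr' ?_
  filter_upwards [eventually_ge_atTop 1] with x hx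
  have h4 : ((⌊x⌋₊ : ℕ) : ℝ) ≠ 0 := by
    have : 1 ≤ ⌊x⌋₊ := Nat.le_floor (by exact_mod_cast hx)
    exact_mod_cast (by omega : ⌊x⌋₊ ≠ 0)
  simp only [Function.comp]
  rw [cS_floor _ (show 0 ≤ x by linarith)]
  field_simp

/-- **the density of an invariant set in every odd class** -/
theorem class_dens (H : DC) {S : Set ℤ} (hS : SInv S) {d : ℝ} (hd : Tendsto (fun x : ℝ => ((cS S x : ℕ) : ℝ) / x) atTop (𝓝 d))
    {m : ℕ} (hm : 0 < m) {b : ℤ} (hb : Odd b) :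
    Tendsto (fun x : ℝ => ((cS (S ∩ {N : ℤ | ((2 * m : ℕ) : ℤ) ∣ N - b}) x : ℕ) : ℝ) / x) atTop (𝓝 (d / m)) := by
  obtain ⟨c0, hc0⟩ := nat_dens le_rfl (phi_inv hS)
  have h1 := cS_class_dens H hS hc0 (m := 1) (by norm_num) (b := 1) (by decide)
  have h2 : Tendsto (fun x : ℝ => ((cS S x : ℕ) : ℝ) / x) atTop (𝓝 (c0 / (2 * 1 : ℕ))) := by
    refine h1.congr (fun x => ?_)
    congr 2
    unfold cS
    congr 1
    ext N
    simp only [Set.mem_ofPred_eq, Set.mem_inter_iff]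
    constructor
    · rintro ⟨⟨a1, _⟩, a2⟩; exact ⟨a1, a2⟩
    · rintro ⟨a1, a2, a3, a4⟩
      refine ⟨⟨a1, ?_⟩, a2, a3, a4⟩
      obtain ⟨k, hk⟩ := a3
      exact ⟨k, by push_cast; linarith⟩
  have h3 := tendsto_nhds_unique hd h2
  have h4 := cS_class_dens H hS hc0 hm hb
  have h5 : d / m = c0 / (2 * m : ℕ) := by
    rw [h3]
    have hm0 : (m : ℝ) ≠ 0 := by exact_mod_cast hm.ne'
    push_cast
    field_simp
  rw [h5]
  exact h4

/-- **Equidistribution**, countably many invariant sets -/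
theorem final (H : DC) (S : ℕ → Set ℤ) (hS : ∀ i, SInv (S i)) (hdis : ∀ i j, i ≠ j → Disjoint (S i) (S j)) :
    ∃ d : ℕ → ℝ, (∀ i, 0 ≤ d i) ∧ Summable d ∧ ∀ m : ℕ, 0 < m → ∀ b : ℤ, Odd b →
      (∀ i, Tendsto (fun x : ℝ => ((cS (S i ∩ {N : ℤ | ((2 * m : ℕ) : ℤ) ∣ N - b}) x : ℕ) : ℝ) / x) atTop (𝓝 (d i / m))) ∧
      Tendsto (fun x : ℝ => ((cS ((⋃ i, S i) ∩ {N : ℤ | ((2 * m : ℕ) : ℤ) ∣ N - b}) x : ℕ) : ℝ) / x) atTop (𝓝 ((∑' i, d i) / m)) := by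
  obtain ⟨d, h1, h2, h3, h4⟩ := count_add S hS hdis
  refine ⟨d, h1, h3, fun m hm b hb => ⟨fun i => class_dens H (hS i) (h2 i) hm hb, class_dens H (SInv.iUnion hS) h4 hm hb⟩⟩

end Pool.Agent.Helper32.EQ
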