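import Pool.Agent.Helper32.EQ.Cls3

/-! The final statement. -/

namespace Pool.Agent.Helper32.EQ

open Pool.Agent.Helper3.ND Pool.Agent.Helper3.TD Filter Topology

theorem card_eq (S : Set ℤ) {m : ℕ} {b : ℤ} (hb : Odd b) (x : ℝ) :
    Nat.card {N : ℤ // N ∈ S ∧ N < 0 ∧ (2 * m : ℤ) ∣ N - b ∧ -x ≤ (N : ℝ)} =
      cS (S ∩ {N : ℤ | ((2 * m : ℕ) : ℤ) ∣ N - b}) x := by
  unfold cS
  have hodd : ∀ N : ℤ, (2 * m : ℤ) ∣ N - b → Odd N := by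
    rintro N ⟨t, ht⟩
    have : N = b + 2 * (m * t) := by linarith
    rw [this]
    exact hb.add_even ⟨m * t, by ring⟩
  rw [← Nat.card_coe_set_eq]
  congr 1
  apply congrArg
  ext N
  simp only [Set.mem_inter_iff, Set.mem_ofPred_eq, Nat.cast_mul, Nat.cast_ofNat]
  constructor
  · rintro ⟨a1, a2, a3, a4⟩; exact ⟨⟨a1, a3⟩, a2, hodd N a3, a4⟩
  · rintro ⟨⟨a1, a3⟩, a2, _, a4⟩; exact ⟨a1, a2, a3, a4⟩

theorem fin (H : DC) (S : ℕ → Set ℤ)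
    (hinv : ∀ i : ℕ, ∀ N : ℤ, N < 0 → Odd N → (N ∈ S i ↔ (3 * N + 1) / 2 ^ padicValInt 2 (3 * N + 1) ∈ S i))
    (hdis : ∀ i j : ℕ, i ≠ j → Disjoint (S i) (S j)) :
    ∃ d : ℕ → ℝ, Summable d ∧ ∀ m : ℕ, 1 ≤ m → ∀ b : ℤ, Odd b →
      (∀ i : ℕ, Tendsto (fun x : ℝ => (Nat.card {N : ℤ // N ∈ S i ∧ N < 0 ∧ (2 * m : ℤ) ∣ N - b ∧ -x ≤ (N : ℝ)} : ℝ) / x)
        atTop (𝓝 (d i / m))) ∧
      Tendsto (fun x : ℝ => (Nat.card {N : ℤ // (∃ i, N ∈ S i) ∧ N < 0 ∧ (2 * m : ℤ) ∣ N - b ∧ -x ≤ (N : ℝ)} : ℝ) / x)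
        atTop (𝓝 ((∑' i, d i) / m)) := by
  obtain ⟨d, _, h1, h2⟩ := final H S hinv hdis
  refine ⟨d, h1, fun m hm b hb => ?_⟩
  obtain ⟨h3, h4⟩ := h2 m hm b hb
  refine ⟨fun i => ?_, ?_⟩
  · refine (h3 i).congr (fun x => ?_)
    rw [card_eq (S i) hb x]
  · refine h4.congr (fun x => ?_)
    rw [← card_eq (⋃ i, S i) hb x]
    simp only [Set.mem_iUnion]

end Pool.Agent.Helper32.EQ
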