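import Pool.Agent.Helper32.EQ.Cls4
import Pool.Agent.Helper32.EQ.Fin

/-! The final statement for sets that are invariant below `-Y` (for instance the set of all `N` whose orbit contains
a given `a`). -/

namespace Pool.Agent.Helper32.EQ

open Pool.Agent.Helper3.ND Pool.Agent.Helper3.TD Filter Topology

theorem fin2 (H : DC) (Y : ℕ) (S : ℕ → Set ℤ)
    (hinv : ∀ i : ℕ, ∀ N : ℤ, N < -(Y : ℤ) → Odd N → (N ∈ S i ↔ (3 * N + 1) / 2 ^ padicValInt 2 (3 * N + 1) ∈ S i))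
    (hdis : ∀ i j : ℕ, i ≠ j → Disjoint (S i) (S j)) :
    ∃ d : ℕ → ℝ, Summable d ∧ ∀ m : ℕ, 1 ≤ m → ∀ b : ℤ, Odd b →
      (∀ i : ℕ, Tendsto (fun x : ℝ => (Nat.card {N : ℤ // N ∈ S i ∧ N < 0 ∧ (2 * m : ℤ) ∣ N - b ∧ -x ≤ (N : ℝ)} : ℝ) / x)
        atTop (𝓝 (d i / m))) ∧
      Tendsto (fun x : ℝ => (Nat.card {N : ℤ // (∃ i, N ∈ S i) ∧ N < 0 ∧ (2 * m : ℤ) ∣ N - b ∧ -x ≤ (N : ℝ)} : ℝ) / x)
        atTop (𝓝 ((∑' i, d i) / m)) := by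
  obtain ⟨d, _, h1, h2⟩ := finalY H Y S hinv hdis
  refine ⟨d, h1, fun m hm b hb => ?_⟩
  obtain ⟨h3, h4⟩ := h2 m hm b hb
  refine ⟨fun i => ?_, ?_⟩
  · refine (h3 i).congr (fun x => ?_)
    rw [card_eq (S i) hb x]
  · refine h4.congr (fun x => ?_)
    rw [← card_eq (⋃ i, S i) hb x]
    simp only [Set.mem_iUnion]

end Pool.Agent.Helper32.EQ
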