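import Pool.Agent.Helper32.EQ.Cls3

/-! Sets that are invariant outside an interval: densities in all odd classes and countable additivity. -/

namespace Pool.Agent.Helper32.EQ

open Pool.Agent.Helper3.ND Pool.Agent.Helper3.TD Filter Topology

/-- invariance under the Syracuse map on the odd integers below `-Y` -/
def SI (Y : ℕ) (S : Set ℤ) : Prop := ∀ N : ℤ, N < -(Y : ℤ) → Odd N → (N ∈ S ↔ syr N ∈ S)

theorem SI.iUnion {Y : ℕ} {ι : Sort*} {S : ι → Set ℤ} (hS : ∀ i, SI Y (S i)) : SI Y (⋃ i, S i) := by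
  intro N h0 ho
  rw [Set.mem_iUnion, Set.mem_iUnion]
  exact exists_congr (fun i => hS i N h0 ho)

theorem PS_TY {Y : ℕ} {S : Set ℤ} (hS : SI Y S) (n : ℤ) (hn : (Y : ℤ) < |n|) : PS S (T n) ↔ PS S n := by
  rcases par_cases n with h | h
  · have h1 := T_even h
    rw [← PS_two (T n), h1]
  · have ho : Odd n := Int.odd_iff.mpr h
    have h1 := T_odd h
    obtain ⟨v, hv, ho'⟩ := syr_spec ho
    have h2 : T n = 2 ^ v * syr n := by
      have : 2 * T n = 2 * (2 ^ v * syr n) := by rw [h1, hv]; ring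
      linarith
    rw [h2, PS_pow, PS_odd ho', PS_odd ho]
    constructor
    · rintro ⟨a1, a2⟩
      have hneg : n < 0 := by
        by_contra hc
        have h3 : 0 < 3 * n + 1 := by omega
        rw [hv] at h3
        have h4 : (0 : ℤ) < 2 ^ (v + 1) := by positivity
        nlinarith
      rw [abs_of_neg hneg] at hn
      exact ⟨hneg, (hS n (by omega) ho).mpr a2⟩
    · rintro ⟨a1, a2⟩
      rw [abs_of_neg a1] at hn
      exact ⟨syr_neg a1 ho, (hS n (by omega) ho).mp a2⟩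

theorem phi_invY {Y : ℕ} {S : Set ℤ} (hS : SI Y S) : Inv (phi S) Y := by
  classical
  refine ⟨fun n => ?_, fun n => ?_, fun n hn => ?_⟩
  · unfold phi; split_ifs <;> norm_num
  · unfold phi; split_ifs <;> norm_num
  · unfold phi
    rw [if_congr (PS_TY hS n (by exact_mod_cast hn)) rfl rfl]

theorem class_limY (H : DC) {Y : ℕ} {S : Set ℤ} (hS : SI Y S) : ∃ d : ℝ, ∀ m : ℕ, 0 < m → ∀ b : ℤ, Odd b →
    Tendsto (fun x : ℝ => ((cS (S ∩ {N : ℤ | ((2 * m : ℕ) : ℤ) ∣ N - b}) x : ℕ) : ℝ) / x) atTop (𝓝 (d / m)) := by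
  obtain ⟨c0, hc0⟩ := nat_dens (Nat.cast_nonneg Y) (phi_invY hS)
  refine ⟨c0 / 2, fun m hm b hb => ?_⟩
  have h2 := all_classes H (Nat.cast_nonneg Y) (phi_invY hS) hc0 (2 * m) (by omega) b
  have h2' : Tendsto (fun X : ℕ => ((cS (S ∩ {N : ℤ | ((2 * m : ℕ) : ℤ) ∣ N - b}) (X : ℝ) : ℕ) : ℝ) / X) atTop (𝓝 (c0 / (2 * m : ℕ))) :=
    h2.congr (fun X => by rw [cS_class S hb X])
  have h3 := (h2'.comp tendsto_nat_floor_atTop).mul (tendsto_nat_floor_div_atTop (R := ℝ))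
  rw [mul_one] at h3
  have e : c0 / 2 / m = c0 / (2 * m : ℕ) := by push_cast; rw [div_div]
  rw [e]
  refine h3.congr' ?_
  filter_upwards [eventually_ge_atTop 1] with x hx
  have h4 : ((⌊x⌋₊ : ℕ) : ℝ) ≠ 0 := by
    have : 1 ≤ ⌊x⌋₊ := Nat.le_floor (by exact_mod_cast hx)
    exact_mod_cast (by omega : ⌊x⌋₊ ≠ 0)
  simp only [Function.comp]
  rw [cS_floor _ (show 0 ≤ x by linarith)]
  field_simp

theorem cS_one (S : Set ℤ) (x : ℝ) : cS (S ∩ {N : ℤ | ((2 * 1 : ℕ) : ℤ) ∣ N - 1}) x = cS S x := by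
  unfold cS
  congr 1
  ext N
  simp only [Set.mem_ofPred_eq, Set.mem_inter_iff]
  constructor
  · rintro ⟨⟨a1, _⟩, a2⟩; exact ⟨a1, a2⟩
  · rintro ⟨a1, a2, a3, a4⟩
    refine ⟨⟨a1, ?_⟩, a2, a3, a4⟩
    obtain ⟨k, hk⟩ := a3
    exact ⟨k, by push_cast; linarith⟩

theorem dens_existsY (H : DC) {Y : ℕ} {S : Set ℤ} (hS : SI Y S) : ∃ d : ℝ,
    Tendsto (fun x : ℝ => ((cS S x : ℕ) : ℝ) / x) atTop (𝓝 d) := by
  obtain ⟨d, hd⟩ := class_limY H hS
  have h := hd 1 one_pos 1 (by decide)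
  rw [Nat.cast_one, div_one] at h
  exact ⟨d, h.congr (fun x => by rw [cS_one])⟩

/-- the density in the classes is determined by the density -/
theorem class_densY (H : DC) {Y : ℕ} {S : Set ℤ} (hS : SI Y S) {d : ℝ}
    (hd : Tendsto (fun x : ℝ => ((cS S x : ℕ) : ℝ) / x) atTop (𝓝 d)) {m : ℕ} (hm : 0 < m) {b : ℤ} (hb : Odd b) :
    Tendsto (fun x : ℝ => ((cS (S ∩ {N : ℤ | ((2 * m : ℕ) : ℤ) ∣ N - b}) x : ℕ) : ℝ) / x) atTop (𝓝 (d / m)) := by
  obtain ⟨d', hd'⟩ := class_limY H hS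
  have h := hd' 1 one_pos 1 (by decide)
  rw [Nat.cast_one, div_one] at h
  have h2 : Tendsto (fun x : ℝ => ((cS S x : ℕ) : ℝ) / x) atTop (𝓝 d') := h.congr (fun x => by rw [cS_one])
  rw [tendsto_nhds_unique hd h2]
  exact hd' m hm b hb

/-- sets avoiding a long initial interval have small density -/
theorem tail_smallY (Y : ℕ) {ε : ℝ} (hε : 0 < ε) : ∃ M : ℕ, ∀ S : Set ℤ, SI Y S → (∀ N ∈ S, N < 0 → Odd N → N < -(M : ℤ)) →
    ∀ x : ℝ, 0 < x → ((cS S x : ℕ) : ℝ) ≤ ε * x := by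
  obtain ⟨C, hC, H⟩ := dens_syr
  have h1 : Tendsto (fun Z : ℝ => C * Real.log Z ^ (-(2 / 5) : ℝ)) atTop (𝓝 (C * 0)) := by
    apply Tendsto.const_mul
    exact (tendsto_rpow_neg_atTop (show (0 : ℝ) < 2 / 5 by norm_num)).comp Real.tendsto_log_atTop
  rw [mul_zero] at h1
  obtain ⟨Z, hY1, hY2⟩ := ((h1.eventually (gt_mem_nhds hε)).and (eventually_ge_atTop (2 : ℝ))).exists
  refine ⟨max ⌈Z⌉₊ Y, ?_⟩
  intro S hS hM x hx
  have hiter : ∀ N ∈ S, N < 0 → Odd N → ∀ k : ℕ, syr^[k] N < 0 ∧ Odd (syr^[k] N) ∧ syr^[k] N ∈ S := by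
    intro N hN h0 ho k
    induction k with
    | zero => exact ⟨h0, ho, hN⟩
    | succ k ih =>
      obtain ⟨h1, h2, h3⟩ := ih
      rw [Function.iterate_succ_apply']
      obtain ⟨_, _, h4⟩ := syr_spec h2
      have h5 := hM _ h3 h1 h2
      have h6 : (Y : ℤ) ≤ ((max ⌈Z⌉₊ Y : ℕ) : ℤ) := by exact_mod_cast le_max_right _ _
      exact ⟨syr_neg h1 h2, h4, (hS _ (by omega) h2).mp h3⟩
  have h2 := H Z hY2 x hx {N : ℤ | N ∈ S ∧ N < 0 ∧ Odd N ∧ -x ≤ (N : ℝ)} (by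
    rintro N ⟨a1, a2, a3, a4⟩
    have hneg : (N : ℝ) < 0 := by exact_mod_cast a2
    refine ⟨a3, by rw [abs_of_neg hneg]; linarith, ?_⟩
    intro k
    obtain ⟨b1, b2, b3⟩ := hiter N a1 a2 a3 k
    have h3 := hM _ b3 b1 b2
    have h7 : (⌈Z⌉₊ : ℤ) ≤ ((max ⌈Z⌉₊ Y : ℕ) : ℤ) := by exact_mod_cast le_max_left _ _
    have h4 : ((syr^[k] N : ℤ) : ℝ) < -((⌈Z⌉₊ : ℤ) : ℝ) := by
      have : syr^[k] N < -(⌈Z⌉₊ : ℤ) := by omega
      exact_mod_cast this
    have h5 := Nat.le_ceil Z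
    have h6 : ((⌈Z⌉₊ : ℤ) : ℝ) = ((⌈Z⌉₊ : ℕ) : ℝ) := by push_cast; rfl
    rw [h6] at h4
    have hneg2 : ((syr^[k] N : ℤ) : ℝ) < 0 := by exact_mod_cast b1
    rw [abs_of_neg hneg2]
    linarith)
  calc ((cS S x : ℕ) : ℝ) ≤ C * x * Real.log Z ^ (-(2 / 5) : ℝ) := h2
    _ = (C * Real.log Z ^ (-(2 / 5) : ℝ)) * x := by ring
    _ ≤ ε * x := mul_le_mul_of_nonneg_right hY1.le hx.le

/-- **countable additivity** -/
theorem count_addY (H : DC) (Y : ℕ) (S : ℕ → Set ℤ) (hS : ∀ i, SI Y (S i)) (hdis : ∀ i j, i ≠ j → Disjoint (S i) (S j)) :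
    ∃ d : ℕ → ℝ, (∀ i, 0 ≤ d i) ∧ (∀ i, Tendsto (fun x : ℝ => ((cS (S i) x : ℕ) : ℝ) / x) atTop (𝓝 (d i))) ∧
      Summable d ∧ Tendsto (fun x : ℝ => ((cS (⋃ i, S i) x : ℕ) : ℝ) / x) atTop (𝓝 (∑' i, d i)) := by
  choose d hd using fun i => dens_existsY H (hS i)
  obtain ⟨D, hD⟩ := dens_existsY H (SI.iUnion hS)
  have hd0 : ∀ i, 0 ≤ d i := by
    intro i
    refine ge_of_tendsto (hd i) ?_
    filter_upwards [eventually_ge_atTop 0] with x hx
    positivity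
  -- initial and final unions
  obtain ⟨P, hP⟩ : ∃ P : ℕ → Set ℤ, P = fun n => ⋃ i, ⋃ (_ : i < n), S i := ⟨_, rfl⟩
  obtain ⟨R, hR⟩ : ∃ R : ℕ → Set ℤ, R = fun n => ⋃ i, ⋃ (_ : n ≤ i), S i := ⟨_, rfl⟩
  have hPinv : ∀ n, SI Y (P n) := by
    intro n; rw [hP]; exact SI.iUnion (fun i => SI.iUnion (fun _ => hS i))
  have hRinv : ∀ n, SI Y (R n) := by
    intro n; rw [hR]; exact SI.iUnion (fun i => SI.iUnion (fun _ => hS i))
  have hmemP : ∀ n N, N ∈ P n ↔ ∃ i, i < n ∧ N ∈ S i := by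
    intro n N; rw [hP]; simp
  have hmemR : ∀ n N, N ∈ R n ↔ ∃ i, n ≤ i ∧ N ∈ S i := by
    intro n N; rw [hR]; simp
  have hPsucc : ∀ n, P (n + 1) = P n ∪ S n := by
    intro n
    ext N
    rw [Set.mem_union, hmemP, hmemP]
    constructor
    · rintro ⟨i, h1, h2⟩
      rcases Nat.lt_or_ge i n with h3 | h3
      · exact Or.inl ⟨i, h3, h2⟩
      · have : i = n := by omega
        rw [this] at h2
        exact Or.inr h2
    · rintro (⟨i, h1, h2⟩ | h2)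
      · exact ⟨i, by omega, h2⟩
      · exact ⟨n, by omega, h2⟩
  have hPS : ∀ n, Disjoint (P n) (S n) := by
    intro n
    rw [Set.disjoint_left]
    intro N h1 h2
    rw [hmemP] at h1
    obtain ⟨i, h3, h4⟩ := h1
    exact Set.disjoint_left.mp (hdis i n (by omega)) h4 h2
  have hPR : ∀ n, Disjoint (P n) (R n) := by
    intro n
    rw [Set.disjoint_left]
    intro N h1 h2
    rw [hmemP] at h1
    rw [hmemR] at h2
    obtain ⟨i, h3, h4⟩ := h1
    obtain ⟨j, h5, h6⟩ := h2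
    exact Set.disjoint_left.mp (hdis i j (by omega)) h4 h6
  have hU : ∀ n, (⋃ i, S i) = P n ∪ R n := by
    intro n
    ext N
    rw [Set.mem_iUnion, Set.mem_union, hmemP, hmemR]
    constructor
    · rintro ⟨i, h1⟩
      rcases Nat.lt_or_ge i n with h3 | h3
      · exact Or.inl ⟨i, h3, h1⟩
      · exact Or.inr ⟨i, h3, h1⟩
    · rintro (⟨i, _, h2⟩ | ⟨i, _, h2⟩)
      · exact ⟨i, h2⟩
      · exact ⟨i, h2⟩
  have hPd : ∀ n, Tendsto (fun x : ℝ => ((cS (P n) x : ℕ) : ℝ) / x) atTop (𝓝 (∑ i ∈ Finset.range n, d i)) := by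
    intro n
    induction n with
    | zero =>
      have h0 : P 0 = ∅ := by
        ext N; rw [hmemP]; simp
      have h1 : ∀ x : ℝ, ((cS (P 0) x : ℕ) : ℝ) / x = 0 := by
        intro x
        rw [h0]
        unfold cS
        simp
      simp only [h1, Finset.range_zero, Finset.sum_empty]
      exact tendsto_const_nhds
    | succ n ih =>
      rw [Finset.sum_range_succ]
      refine (ih.add (hd n)).congr (fun x => ?_)
      rw [hPsucc, cS_add (hPS n)]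
      push_cast
      ring
  have hRd : ∀ n, Tendsto (fun x : ℝ => ((cS (R n) x : ℕ) : ℝ) / x) atTop (𝓝 (D - ∑ i ∈ Finset.range n, d i)) := by
    intro n
    refine (hD.sub (hPd n)).congr (fun x => ?_)
    rw [hU n, cS_add (hPR n)]
    push_cast
    ring
  -- the tail tends to zero
  have htail : Tendsto (fun n => D - ∑ i ∈ Finset.range n, d i) atTop (𝓝 0) := by
    rw [Metric.tendsto_atTop]
    intro ε hε
    obtain ⟨M, hM⟩ := tail_smallY Y (show 0 < ε / 2 by positivity)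
    -- indices of the sets meeting the interval
    have hidx : ∀ m : ℕ, ∃ n : ℕ, ∀ i, -(m : ℤ) ∈ S i → i < n := by
      intro m
      by_cases h : ∃ i, -(m : ℤ) ∈ S i
      · obtain ⟨i, hi⟩ := h
        refine ⟨i + 1, fun j hj => ?_⟩
        by_contra hc
        exact Set.disjoint_left.mp (hdis i j (by omega)) hi hj
      · exact ⟨0, fun i hi => absurd ⟨i, hi⟩ h⟩
    choose g hg using hidx
    refine ⟨∑ m ∈ Finset.range (M + 1), g m, ?_⟩
    intro n hn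
    have havoid : ∀ N ∈ R n, N < 0 → Odd N → N < -(M : ℤ) := by
      intro N hN h0 _
      by_contra hc
      rw [hmemR] at hN
      obtain ⟨i, hi1, hi2⟩ := hN
      obtain ⟨m, hm⟩ := Int.eq_ofNat_of_zero_le (show 0 ≤ -N by omega)
      have hm2 : N = -(m : ℤ) := by omega
      rw [hm2] at hi2
      have h1 := hg m i hi2
      have h2 := Finset.single_le_sum (f := g) (fun j _ => Nat.zero_le _) (show m ∈ Finset.range (M + 1) by
        rw [Finset.mem_range]; omega)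
      omega
    have h1 := hM (R n) (hRinv n) havoid
    have h2 : D - ∑ i ∈ Finset.range n, d i ≤ ε / 2 := by
      refine le_of_tendsto (hRd n) ?_
      filter_upwards [eventually_gt_atTop 0] with x hx
      rw [div_le_iff₀ hx]
      exact h1 x hx
    have h3 : 0 ≤ D - ∑ i ∈ Finset.range n, d i := by
      refine ge_of_tendsto (hRd n) ?_
      filter_upwards [eventually_ge_atTop 0] with x hx
      positivity
    rw [Real.dist_eq, sub_zero, abs_of_nonneg h3]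
    linarith
  have hsum : HasSum d D := by
    rw [hasSum_iff_tendsto_nat_of_nonneg hd0]
    have := htail.const_sub D
    simpa using this
  refine ⟨d, hd0, hd, hsum.summable, ?_⟩
  rw [hsum.tsum_eq]
  exact hD



/-- **Equidistribution**, countably many sets that are invariant below `-Y` -/
theorem finalY (H : DC) (Y : ℕ) (S : ℕ → Set ℤ) (hS : ∀ i, SI Y (S i)) (hdis : ∀ i j, i ≠ j → Disjoint (S i) (S j)) :
    ∃ d : ℕ → ℝ, (∀ i, 0 ≤ d i) ∧ Summable d ∧ ∀ m : ℕ, 0 < m → ∀ b : ℤ, Odd b →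
      (∀ i, Tendsto (fun x : ℝ => ((cS (S i ∩ {N : ℤ | ((2 * m : ℕ) : ℤ) ∣ N - b}) x : ℕ) : ℝ) / x) atTop (𝓝 (d i / m))) ∧
      Tendsto (fun x : ℝ => ((cS ((⋃ i, S i) ∩ {N : ℤ | ((2 * m : ℕ) : ℤ) ∣ N - b}) x : ℕ) : ℝ) / x) atTop (𝓝 ((∑' i, d i) / m)) := by
  obtain ⟨d, h1, h2, h3, h4⟩ := count_addY H Y S hS hdis
  refine ⟨d, h1, h3, fun m hm b hb => ⟨fun i => class_densY H (hS i) (h2 i) hm hb, class_densY H (SI.iUnion hS) h4 hm hb⟩⟩

end Pool.Agent.Helper32.EQ
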